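import Pool.Agent.X35.GM.Vec
import Pool.Agent.X35.GV.TwistT

/-!
# The Frobenius traces on the middle cohomology of hypersurfaces of odd dimension at `s` consecutive primes, for ALL members `X_n`, `n` near
the members of a thin sequence, of ALL one-parameter families of all dimensions and degrees: all boxes, with square-root error against the finite-field model
-/

set_option autoImplicit false

namespace Pool.Agent.Results.MP_4c4ce6_nt.OddWeightNearSequences

open Finset

/-- The member `F_n ∈ ℤ[x_0, ..., x_(2 m + 2)]` of the family `F ∈ ℤ[T][x_0, ..., x_(2 m + 2)]`, modulo `p`. -/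
noncomputable def member {m : ℕ} (F : MvPolynomial (Fin (2 * m + 3)) (Polynomial ℤ)) (n p : ℕ) :
    MvPolynomial (Fin (2 * m + 3)) (ZMod p) :=
  MvPolynomial.map ((Int.castRingHom (ZMod p)).comp (Polynomial.evalRingHom (n : ℤ))) F

/-- `f = 0` is a smooth hypersurface of degree `D` (and dimension `2 m + 1`) in the projective space of dimension `2 m + 2` over `𝔽_p`: `p` is a prime,
`f` is homogeneous of degree `D`, and `f` and its partial derivatives have no common zero except `0` over the algebraic closure. -/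
def Good {m : ℕ} (D p : ℕ) (f : MvPolynomial (Fin (2 * m + 3)) (ZMod p)) : Prop :=
  ∃ h : p.Prime, haveI : Fact p.Prime := ⟨h⟩
    f.IsHomogeneous D ∧ ∀ x : Fin (2 * m + 3) → AlgebraicClosure (ZMod p),
      MvPolynomial.aeval x f = 0 → (∀ i, MvPolynomial.aeval x (MvPolynomial.pderiv i f) = 0) → x = 0

open Classical in
/-- The number of the solutions of `f = 0` in `𝔽 ^ (2 m + 3)`, `𝔽` the field with `p ^ k` elements. -/
noncomputable def zeros {m : ℕ} (p k : ℕ) (f : MvPolynomial (Fin (2 * m + 3)) (ZMod p)) : ℕ :=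
  if h : p.Prime then
    haveI : Fact p.Prime := ⟨h⟩
    Nat.card {x : Fin (2 * m + 3) → GaloisField p k // MvPolynomial.aeval x f = 0}
  else 0

/-- The trace of the `k`-th power of Frobenius, divided by `q ^ ((2 m + 1) / 2)`, `q = p ^ k`, on `H ^ (2 m + 1) (X)` (of odd weight `2 m + 1`) for the
hypersurface `X : f = 0` of dimension `2 m + 1`: it is `(∑_{j ≤ 2 m + 1} q ^ j - #X(𝔽_q)) / q ^ ((2 m + 1) / 2)`, and
`#X(𝔽_q) = (#{x ∈ 𝔽_q ^ (2 m + 3) : f(x) = 0} - 1) / (q - 1)`. -/
noncomputable def trace {m : ℕ} (p k : ℕ) (f : MvPolynomial (Fin (2 * m + 3)) (ZMod p)) : ℝ :=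
  (∑ j ∈ range (2 * m + 2), ((p : ℝ) ^ k) ^ j - ((zeros p k f : ℝ) - 1) / ((p : ℝ) ^ k - 1)) / Real.sqrt ((p : ℝ) ^ k) ^ (2 * m + 1)

/-- The hypersurface is smooth of degree `D` at `p`, and the normalised traces of the first `r` powers of Frobenius are in the
sets `J 0, ..., J (r - 1)`. -/
def InBox {m r : ℕ} (D p : ℕ) (f : MvPolynomial (Fin (2 * m + 3)) (ZMod p)) (J : Fin r → Set ℝ) : Prop :=
  Good D p f ∧ ∀ j : Fin r, trace p (j + 1) f ∈ J j

open Classical in
/-- The number of the `k < K` such that for all `i < s` the hypersurface `F_n = 0` has the property `InBox` with the box `I i` at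
the prime with the number `k + i` (the primes are numbered from `0`). -/
noncomputable def boxCount {s m r : ℕ} (D : ℕ) (F : MvPolynomial (Fin (2 * m + 3)) (Polynomial ℤ)) (n : ℕ)
    (I : Fin s → Fin r → Set ℝ) (K : ℕ) : ℕ :=
  ((range K).filter (fun k => ∀ i : Fin s,
    InBox D (Nat.nth Nat.Prime (k + i)) (member F n (Nat.nth Nat.Prime (k + i))) (I i))).card

open Classical in
/-- The proportion of the residues `t` modulo `p` such that `F_t = 0` has the property `InBox` at `p`. -/
noncomputable def proportion {m r : ℕ} (D : ℕ) (F : MvPolynomial (Fin (2 * m + 3)) (Polynomial ℤ)) (p : ℕ)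
    (J : Fin r → Set ℝ) : ℝ :=
  ((range p).filter (fun t : ℕ => InBox D p (member F t p) J)).card / p

/-- The expected number: the sum over `k < K` of the product of the proportions at the `s` primes. -/
noncomputable def boxModel {s m r : ℕ} (D : ℕ) (F : MvPolynomial (Fin (2 * m + 3)) (Polynomial ℤ))
    (I : Fin s → Fin r → Set ℝ) (K : ℕ) : ℝ :=
  ∑ k ∈ range K, ∏ i : Fin s, proportion D F (Nat.nth Nat.Prime (k + i)) (I i)

theorem member_per {m : ℕ} (F : MvPolynomial (Fin (2 * m + 3)) (Polynomial ℤ)) (n p : ℕ) :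
    member F (n + p) p = member F n p := by
  have h : (Int.castRingHom (ZMod p)).comp (Polynomial.evalRingHom (((n + p : ℕ)) : ℤ)) =
      (Int.castRingHom (ZMod p)).comp (Polynomial.evalRingHom (n : ℤ)) := by
    apply RingHom.ext
    intro c
    show ((Polynomial.eval ((n + p : ℕ) : ℤ) c : ℤ) : ZMod p) = ((Polynomial.eval (n : ℤ) c : ℤ) : ZMod p)
    rw [← sub_eq_zero, ← Int.cast_sub]
    apply (ZMod.intCast_zmod_eq_zero_iff_dvd _ p).2
    have e : ((n + p : ℕ) : ℤ) - (n : ℤ) = p := by push_cast; ring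
    have := Polynomial.sub_dvd_eval_sub ((n + p : ℕ) : ℤ) (n : ℤ) c
    rwa [e] at this
  unfold member
  rw [h]

open Classical in
/-- the statistic as a vector: the indicator of goodness and the traces -/
noncomputable def st {m : ℕ} (D r : ℕ) (F : MvPolynomial (Fin (2 * m + 3)) (Polynomial ℤ)) (p n : ℕ) : Fin (r + 1) → ℝ :=
  Fin.cons (if Good D p (member F n p) then 1 else 0) (fun j : Fin r => trace p (j + 1) (member F n p))

theorem st_per {m : ℕ} (D r : ℕ) (F : MvPolynomial (Fin (2 * m + 3)) (Polynomial ℤ)) (p n : ℕ) :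
    st D r F p (n + p) = st D r F p n := by
  unfold st
  rw [member_per]

theorem st_iff {m : ℕ} (D r : ℕ) (F : MvPolynomial (Fin (2 * m + 3)) (Polynomial ℤ)) (p n : ℕ) (J : Fin r → Set ℝ) :
    (∀ j, st D r F p n j ∈ (Fin.cons {1} J : Fin (r + 1) → Set ℝ) j) ↔ InBox D p (member F n p) J := by
  unfold InBox
  rw [Fin.forall_fin_succ]
  unfold st
  simp only [Fin.cons_zero, Fin.cons_succ, Set.mem_singleton_iff]
  by_cases h : Good D p (member F n p)
  · simp [h]
  · simp [h]

theorem countable_mvp (k : ℕ) : Countable (MvPolynomial (Fin k) (Polynomial ℤ)) := by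
  have h0 := Pool.Agent.X35.GM.countable_int_poly
  rw [← Cardinal.mk_le_aleph0_iff]
  refine MvPolynomial.cardinalMk_le_max_lift.trans ?_
  simp

/-- Let `s ≥ 1`, `r` and `δ > 0` be given. There are `κ > 0` and `C` such that for all reals `v_i ≥ 1` with `∑ v_i ^ (-t) < ∞` for all `t > τ`
(`τ ≥ 0`; for example `v_i = 2 ^ i`, `τ = 0`) and all `θ < 1` there is a set `E` of reals of Hausdorff dimension at most `(1 - κ + τ) / (1 - θ)` with the
following property. For every real `α > 0` outside `E`, ALL `m`, ALL degrees `D`, ALL families `F ∈ ℤ[T][x_0, ..., x_(2 m + 2)]`, all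
`i ≥ i₀(α, m, D, F)`, ALL integers `n ≥ 0` with `|n - α v_i| ≤ v_i ^ θ`, ALL `K ≤ n ^ κ` and ALL products `I 0, ..., I (s - 1)` of `r` intervals, the
number of the `k < K` such that for all `i < s` the hypersurface `X_n : F_n = 0` is smooth of degree `D` modulo the prime with the number
`k + i` and the normalised traces of the first `r` powers of Frobenius on `H ^ (2 m + 1) (X_n)` at this prime are in `I i` differs from the expected
number by at most `C K ^ (1 / 2 + δ) (1 + log n) ^ (1 / 2)`. -/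
theorem result (s r : ℕ) (hs : 1 ≤ s) (δ : ℝ) (hδ : 0 < δ) :
    ∃ κ C : ℝ, 0 < κ ∧ 0 < C ∧ ∀ (v : ℕ → ℝ) (τ θ : ℝ), (∀ i, 1 ≤ v i) → 0 ≤ τ → θ < 1 →
      (∀ t : ℝ, τ < t → Summable (fun i => v i ^ (-t))) →
      ∃ E : Set ℝ, dimH E ≤ ENNReal.ofReal ((1 - κ + τ) / (1 - θ)) ∧
        ∀ α : ℝ, 0 < α → α ∉ E → ∀ (m D : ℕ) (F : MvPolynomial (Fin (2 * m + 3)) (Polynomial ℤ)),
          ∃ i₀ : ℕ, ∀ i : ℕ, i₀ ≤ i → ∀ n : ℕ, |(n : ℝ) - α * v i| ≤ v i ^ θ → ∀ K : ℕ, (K : ℝ) ≤ (n : ℝ) ^ κ →
            ∀ I : Fin s → Fin r → Set ℝ, (∀ i j, (I i j).OrdConnected) →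
              |(boxCount D F n I K : ℝ) - boxModel D F I K| ≤ C * ((K : ℝ) ^ (1 / 2 + δ) * √(1 + Real.log n)) := by
  classical
  obtain ⟨κ, C, h1, _, h3, H⟩ := Pool.Agent.X35.GM.vecB s (r + 1) hs δ hδ
  refine ⟨κ, C, h1, by linarith, fun v τ θ hv1 hτ hθ hv => ?_⟩
  have hcnt : Countable (Σ m : ℕ, ℕ × MvPolynomial (Fin (2 * m + 3)) (Polynomial ℤ)) := by
    have : ∀ m : ℕ, Countable (MvPolynomial (Fin (2 * m + 3)) (Polynomial ℤ)) := fun m => countable_mvp _
    infer_instance
  obtain ⟨E, hE1, hE2⟩ := H (ι := Σ m : ℕ, ℕ × MvPolynomial (Fin (2 * m + 3)) (Polynomial ℤ)) (fun c => st c.2.1 r c.2.2)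
    (fun c => st_per c.2.1 r c.2.2) v τ θ hv1 hτ hθ hv
  refine ⟨E, hE1, fun α hα hαE m D F => ?_⟩
  obtain ⟨i₀, hi₀⟩ := hE2 α hα hαE ⟨m, D, F⟩
  refine ⟨i₀, fun i hi n hn K hK I hI => ?_⟩
  have h := hi₀ i hi n hn K hK (fun i => Fin.cons {1} (I i)) (by
    intro i
    rw [Fin.forall_fin_succ]
    exact ⟨Set.ordConnected_singleton, fun j => hI i j⟩)
  have e1 : Pool.Agent.X35.GM.cnt (fun p => st D r F p n) (fun i => (Fin.cons {1} (I i) : Fin (r + 1) → Set ℝ)) K =
      boxCount D F n I K := by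
    unfold Pool.Agent.X35.GM.cnt boxCount
    congr 1
    ext k
    simp only [mem_filter]
    exact and_congr_right fun _ => forall_congr' fun i => st_iff D r F _ n (I i)
  have e2 : Pool.Agent.X35.GM.mdl (st D r F) (fun i => (Fin.cons {1} (I i) : Fin (r + 1) → Set ℝ)) K = boxModel D F I K := by
    unfold Pool.Agent.X35.GM.mdl boxModel proportion Pool.Agent.X35.GM.prp
    refine sum_congr rfl fun k _ => prod_congr rfl fun i _ => ?_
    congr 3
    ext t
    simp only [mem_filter]
    exact and_congr_right fun _ => st_iff D r F _ t (I i)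
  rw [e1, e2] at h
  exact h

end Pool.Agent.Results.MP_4c4ce6_nt.OddWeightNearSequences
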