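import Pool.Agent.X289.Several2

/-!
# Any number of families: independence in pairs and the joint Sato-Tate law

`K` is a number field, and for every `i` in a set `ι` of any size `G_i` is the Sato-Tate group over `K` of
a family as in the problem; `x_i(v) ∈ G_i` are elements of the classes of the prime `v` of `K` (any
elements at finitely many exceptional primes; this changes the `L`-functions below by finitely many
factors without zeros and poles in `Re s > 0`).  Suppose that the joint Sato-Tate law is known for every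
PAIR of the families.  For non-CM elliptic curves over `ℚ`, pairwise not isogenous over the algebraic
closure, this is a theorem of Harris; for triples the law is not known.  (Independence in pairs does not
imply independence: three quadratic characters with product `1`.)

The theorem is about the law of `k`-tuples of the families, that is, about direct sums of families with
the group `G_{i_1} × ... × G_{i_k}`, and about the functions
`L(π_1 ⊗ ... ⊗ π_k, s) = ∏_v det (1 - q_v^{-s} π_1(x_{i_1}(v)) ⊗ ... ⊗ π_k(x_{i_k}(v)))⁻¹` for nontrivial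
irreducible representations `π_a` of `G_{i_a}`.

I. If any `k ≥ 2` of the families are jointly equidistributed, then for `k + 1` of the families and
`π_1, ..., π_{k+1}` not all one-dimensional, `|log |L(1 + iτ + ε)|| ≤ (1 - δ) log (1/ε)` for some `δ > 0`
and all small `ε > 0`, and every meromorphic continuation of `L(s)` to a neighbourhood of a point
`1 + iτ` has the order `0` there.  Nothing is assumed about any other `L`-function.  For `k = 2` this holds
for every triple.

II. If for `k ≥ 3` all functions `L(π_1 ⊗ ... ⊗ π_k, s)` have meromorphic continuations to neighbourhoods of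
the points of the line `Re s = 1`, and those for one-dimensional `π_1, ..., π_k` have no zeros or poles
there, then any finite number of the families are jointly equidistributed.  In particular the
meromorphic continuation is enough if the groups `G_i` have no nontrivial one-dimensional
representations, for instance if they are `SU(2)`, or `USp(2g)`, or any connected groups with finite centre:
the orders need not be known in advance, they are forced to be `0`.
-/

set_option autoImplicit false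

namespace Pool.Agent.Results.MP_4c4ce6_nt.SeveralFamilies

open NumberField IsDedekindDomain Filter Topology MeasureTheory

section

variable {K : Type} [Field K] [NumberField K]

/-- The norm `q_v` of the prime `v`. -/
noncomputable def q (v : HeightOneSpectrum (𝓞 K)) : ℕ := Ideal.absNorm v.asIdeal

/-- The average of `φ` over the primes of `K` of norm at most `N`. -/
noncomputable def avg (φ : HeightOneSpectrum (𝓞 K) → ℂ) (N : ℕ) : ℂ :=
  (∑ᶠ v : {v : HeightOneSpectrum (𝓞 K) // q v ≤ N}, φ v.1) /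
    (Nat.card {v : HeightOneSpectrum (𝓞 K) // q v ≤ N} : ℂ)

variable {ι : Type} {G : ι → Type} [∀ i, Group (G i)] [∀ i, TopologicalSpace (G i)]
  [∀ i, MeasurableSpace (G i)]

/-- Any `k` of the families are jointly equidistributed: for pairwise different `j_1, ..., j_k` the
classes of the `(x_{j_1}(v), ..., x_{j_k}(v))` are equidistributed in `G_{j_1} × ... × G_{j_k}`. -/
def JointLaw (x : ∀ i, HeightOneSpectrum (𝓞 K) → G i) (μ : ∀ i, Measure (G i)) (k : ℕ) : Prop :=
  ∀ j : Fin k → ι, Function.Injective j → ∀ f : (∀ a, G (j a)) → ℂ, Continuous f →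
    (∀ g h, f (h * g * h⁻¹) = f g) →
    Tendsto (avg fun v => f fun a => x (j a) v) atTop (𝓝 (∫ g, f g ∂(Measure.pi fun a => μ (j a))))

/-- The unitary representation `π` is continuous, irreducible (only the scalars commute with all
matrices `π g`) and not trivial. -/
structure IsNontrivialIrreducible {G : Type} [Group G] [TopologicalSpace G] {n : ℕ}
    (π : G →* Matrix.unitaryGroup (Fin n) ℂ) : Prop where
  continuous : Continuous π
  schur : ∀ A : Matrix (Fin n) (Fin n) ℂ, (∀ g, (π g : Matrix (Fin n) (Fin n) ℂ) * A = A * π g) →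
    ∃ c : ℂ, A = c • (1 : Matrix (Fin n) (Fin n) ℂ)
  nontrivial : ∃ g, π g ≠ 1

/-- The tensor product of the matrices `A_a`: its entries are the products of entries. -/
def tensor {k : ℕ} {n : Fin k → ℕ} (A : ∀ a, Matrix (Fin (n a)) (Fin (n a)) ℂ) :
    Matrix (∀ a, Fin (n a)) (∀ a, Fin (n a)) ℂ :=
  Matrix.of fun r s => ∏ a, A a (r a) (s a)

/-- The Euler product `L(π_1 ⊗ ... ⊗ π_k, s) = ∏_v det (1 - q_v^{-s} ⊗_a π_a(x_{j_a}(v)))⁻¹`. -/
noncomputable def LFun (x : ∀ i, HeightOneSpectrum (𝓞 K) → G i) {k : ℕ} (j : Fin k → ι)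
    {n : Fin k → ℕ} (π : ∀ a, G (j a) →* Matrix.unitaryGroup (Fin (n a)) ℂ) (s : ℂ) : ℂ :=
  ∏' v : HeightOneSpectrum (𝓞 K), (Matrix.det (1 - ((q v : ℂ) ^ (-s)) •
    tensor fun a => (π a (x (j a) v) : Matrix (Fin (n a)) (Fin (n a)) ℂ)))⁻¹

/-- `log |L(1 + iτ + ε)| / log (1/ε)`. -/
noncomputable def size (L : ℂ → ℂ) (τ ε : ℝ) : ℝ :=
  Real.log ‖L (1 + τ * Complex.I + ε)‖ / Real.log (1 / ε)

/-- `Λ` is a meromorphic continuation of `L` to a neighbourhood of `1 + iτ`. -/
def IsContinuation (L : ℂ → ℂ) (τ : ℝ) (Λ : ℂ → ℂ) : Prop :=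
  MeromorphicAt Λ (1 + τ * Complex.I) ∧
    ∀ᶠ s in 𝓝 ((1 : ℂ) + τ * Complex.I), (1 : ℝ) < s.re → Λ s = L s

end

section Bridge

set_option linter.unusedSectionVars false

open Pool.Agent.TH553.ST Pool.Agent.TH553.RS Pool.Agent.W540.BE Pool.Agent.X289.Several
  Pool.Agent.X289.DenseM

variable {K : Type} [Field K] [NumberField K]

theorem avg_eq (g : HeightOneSpectrum (𝓞 K) → ℂ) : avg g = mn g := by
  funext N
  have hs : ∀ v, v ∈ upto K N ↔ Ideal.absNorm v.asIdeal ≤ N := fun v => mem_upto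
  let e : {v : HeightOneSpectrum (𝓞 K) // Ideal.absNorm v.asIdeal ≤ N} ≃ (upto K N) :=
    Equiv.subtypeEquivRight fun v => (hs v).symm
  have hfin : Finite {v : HeightOneSpectrum (𝓞 K) // Ideal.absNorm v.asIdeal ≤ N} :=
    Finite.of_equiv _ e.symm
  unfold avg mn q
  have h1 : (∑ᶠ v : {v : HeightOneSpectrum (𝓞 K) // Ideal.absNorm v.asIdeal ≤ N}, g v.1) =
      ∑ v ∈ upto K N, g v := by
    rw [← Finset.sum_coe_sort, ← finsum_eq_sum_of_fintype, ← finsum_comp_equiv e]
    rfl
  have h2 : Nat.card {v : HeightOneSpectrum (𝓞 K) // Ideal.absNorm v.asIdeal ≤ N} =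
      (upto K N).card := by
    rw [Nat.card_congr e, Nat.card_eq_fintype_card, Fintype.card_coe]
  rw [h1, h2, Complex.real_smul, div_eq_inv_mul]
  push_cast
  rfl

variable {ι : Type} {G : ι → Type} [∀ i, Group (G i)] [∀ i, TopologicalSpace (G i)]
  [∀ i, IsTopologicalGroup (G i)] [∀ i, CompactSpace (G i)] [∀ i, MeasurableSpace (G i)]
  [∀ i, BorelSpace (G i)] {μ : ∀ i, Measure (G i)} [∀ i, IsProbabilityMeasure (μ i)]
  {x : ∀ i, HeightOneSpectrum (𝓞 K) → G i}

theorem wise_of {k : ℕ} (h : JointLaw x μ k) : Wise x μ k := by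
  intro j hj f hf hcl
  have h1 := h j hj f hf hcl
  rwa [avg_eq] at h1

theorem of_wise {k : ℕ} (h : Wise x μ k) : JointLaw x μ k := by
  intro j hj f hf hcl
  rw [avg_eq]
  exact h j hj f hf hcl

theorem pair_of (h : Wise x μ 2) {i i' : ι} (hi : i ≠ i') : PLaw (x i) (x i') (μ i) (μ i') := by
  intro f g hf hg hfc hgc
  have hj : Function.Injective ![i, i'] := by
    intro a b hab
    fin_cases a <;> fin_cases b
    · rfl
    · exact absurd hab hi
    · exact absurd hab hi.symm
    · rfl
  let F : ∀ a : Fin 2, G (![i, i'] a) → ℂ :=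
    Fin.cons (α := fun a => G (![i, i'] a) → ℂ) f (Fin.cons (α := fun a : Fin 1 =>
      G (![i, i'] a.succ) → ℂ) g finZeroElim)
  have h1 := joint_prod (h ![i, i'] hj) (f := F) (fun a => by
    fin_cases a
    · exact hf
    · exact hg) (fun a b c => by
    fin_cases a
    · exact hfc b c
    · exact hgc b c)
  rw [Fin.prod_univ_two] at h1
  have e : (fun v => ∏ a, F a (x (![i, i'] a) v)) = fun v => f (x i v) * g (x i' v) := by
    funext v
    rw [Fin.prod_univ_two]
    rfl
  rw [e] at h1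
  exact h1

theorem law_of (h : Wise x μ 2) {i i' : ι} (hi : i ≠ i') : Law (x i) (μ i) := by
  intro f hf hcl
  have h1 := pair_of h hi (fun g => (f g : ℂ)) (fun _ => 1) (Complex.continuous_ofReal.comp hf)
    continuous_const (fun a b => by rw [hcl]) (fun a b => rfl)
  have e1 : ∫ g, (f g : ℂ) ∂(μ i) = ((∫ g, f g ∂(μ i) : ℝ) : ℂ) := integral_ofReal
  have e2 : ∫ _ : G i', (1 : ℂ) ∂(μ i') = 1 := by simp
  rw [e1, e2, mul_one] at h1
  have h2 := (Complex.continuous_re.tendsto _).comp h1
  refine h2.congr fun N => ?_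
  simp only [Function.comp, mul_one]
  rw [re_mn]
  rfl

theorem ne_zero_of {G : Type} [Group G] [TopologicalSpace G] {n : ℕ}
    {π : G →* Matrix.unitaryGroup (Fin n) ℂ} (h : IsNontrivialIrreducible π) : n ≠ 0 := by
  rintro rfl
  obtain ⟨g, hg⟩ := h.nontrivial
  apply hg
  apply Subtype.ext
  ext i
  exact absurd i.2 (by omega)

end Bridge

/-- **Any number of families.**  Let `K` be a number field, `G_i`, `i ∈ ι`, compact Hausdorff second
countable groups with Haar probability measures `μ_i`, and `x_i(v) ∈ G_i` for the primes `v` of `K`, such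
that any two of the families `x_i` are jointly equidistributed.

I.  Let `k ≥ 2` and suppose that any `k` of the families are jointly equidistributed (for `k = 2` this is
the assumption).  Let `j_1, ..., j_{k+1}` be pairwise different indices, `π_a` nontrivial irreducible
representations of `G_{j_a}`, `τ` a real number and `L(s) = L(π_1 ⊗ ... ⊗ π_{k+1}, s)`.  Then
`L(1 + iτ + ε) ≠ 0` for small `ε > 0`, and `|log |L(1 + iτ + ε)||` is at most `(1 + η) log (1/ε)` for every
`η > 0` and all small `ε`; if the `π_a` are not all one-dimensional, it is at most `(1 - δ) log (1/ε)`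
for some `δ > 0` and all small `ε`.  Every meromorphic continuation to a neighbourhood of `1 + iτ` has an
order `m` with `|m| ≤ 1` at this point, and `m = 0` if the `π_a` are not all one-dimensional.

II.  Suppose that for all `k ≥ 3`, pairwise different `j_1, ..., j_k`, nontrivial irreducible `π_a` and
real `τ` there is a meromorphic continuation of `L(π_1 ⊗ ... ⊗ π_k, s)` to a neighbourhood of `1 + iτ`,
which has no zero or pole at `1 + iτ` if all `π_a` are one-dimensional.  Then for every `k ≥ 2` any `k`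
of the families are jointly equidistributed, and none of the `L(π_1 ⊗ ... ⊗ π_k, s)` (`k ≥ 3`) has a
zero or a pole on the line `Re s = 1`. -/
theorem result (K : Type) [Field K] [NumberField K] (ι : Type) (G : ι → Type)
    [∀ i, Group (G i)] [∀ i, TopologicalSpace (G i)] [∀ i, IsTopologicalGroup (G i)]
    [∀ i, CompactSpace (G i)] [∀ i, T2Space (G i)] [∀ i, SecondCountableTopology (G i)]
    [∀ i, MeasurableSpace (G i)] [∀ i, BorelSpace (G i)] (μ : ∀ i, Measure (G i))
    [∀ i, IsProbabilityMeasure (μ i)] [∀ i, (μ i).IsHaarMeasure]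
    (x : ∀ i, HeightOneSpectrum (𝓞 K) → G i) (hpair : JointLaw x μ 2) :
    (∀ k : ℕ, 2 ≤ k → JointLaw x μ k → ∀ (j : Fin (k + 1) → ι), Function.Injective j →
      ∀ (n : Fin (k + 1) → ℕ) (π : ∀ a, G (j a) →* Matrix.unitaryGroup (Fin (n a)) ℂ) (τ : ℝ),
      (∀ a, IsNontrivialIrreducible (π a)) →
      (∀ᶠ ε : ℝ in 𝓝[>] 0, LFun x j π (1 + τ * Complex.I + ε) ≠ 0) ∧
      (∀ η : ℝ, 0 < η → ∀ᶠ ε : ℝ in 𝓝[>] 0, |size (LFun x j π) τ ε| ≤ 1 + η) ∧
      (¬ (∀ a, n a = 1) →
        ∃ δ : ℝ, 0 < δ ∧ ∀ᶠ ε : ℝ in 𝓝[>] 0, |size (LFun x j π) τ ε| ≤ 1 - δ) ∧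
      ∀ Λ : ℂ → ℂ, IsContinuation (LFun x j π) τ Λ →
        ∃ m : ℤ, meromorphicOrderAt Λ (1 + τ * Complex.I) = m ∧ |m| ≤ 1 ∧
          (¬ (∀ a, n a = 1) → m = 0)) ∧
    ((∀ k : ℕ, 3 ≤ k → ∀ (j : Fin k → ι), Function.Injective j →
      ∀ (n : Fin k → ℕ) (π : ∀ a, G (j a) →* Matrix.unitaryGroup (Fin (n a)) ℂ),
      (∀ a, IsNontrivialIrreducible (π a)) → ∀ τ : ℝ,
        ∃ Λ : ℂ → ℂ, IsContinuation (LFun x j π) τ Λ ∧
          ((∀ a, n a = 1) → meromorphicOrderAt Λ (1 + τ * Complex.I) = 0)) →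
      (∀ k : ℕ, 2 ≤ k → JointLaw x μ k) ∧
      ∀ k : ℕ, 3 ≤ k → ∀ (j : Fin k → ι), Function.Injective j →
        ∀ (n : Fin k → ℕ) (π : ∀ a, G (j a) →* Matrix.unitaryGroup (Fin (n a)) ℂ),
        (∀ a, IsNontrivialIrreducible (π a)) → ∀ τ : ℝ,
        ∃ Λ : ℂ → ℂ, IsContinuation (LFun x j π) τ Λ ∧
          meromorphicOrderAt Λ (1 + τ * Complex.I) = 0) := by
  have hw2 := wise_of hpair
  by_cases hι : ∀ i : ι, ∃ i', i ≠ i'
  · have hl : ∀ i, Pool.Agent.TH553.ST.Law (x i) (μ i) := fun i => by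
      obtain ⟨i', hi⟩ := hι i
      exact law_of hw2 hi
    have hp : ∀ i i', i ≠ i' → Pool.Agent.X289.Several.PLaw (x i) (x i') (μ i) (μ i') :=
      fun i i' hi => pair_of hw2 hi
    have one : ∀ k : ℕ, 2 ≤ k → JointLaw x μ k → ∀ (j : Fin (k + 1) → ι), Function.Injective j →
      ∀ (n : Fin (k + 1) → ℕ) (π : ∀ a, G (j a) →* Matrix.unitaryGroup (Fin (n a)) ℂ) (τ : ℝ),
      (∀ a, IsNontrivialIrreducible (π a)) →
      (∀ᶠ ε : ℝ in 𝓝[>] 0, LFun x j π (1 + τ * Complex.I + ε) ≠ 0) ∧
      (∀ η : ℝ, 0 < η → ∀ᶠ ε : ℝ in 𝓝[>] 0, |size (LFun x j π) τ ε| ≤ 1 + η) ∧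
      (¬ (∀ a, n a = 1) →
        ∃ δ : ℝ, 0 < δ ∧ ∀ᶠ ε : ℝ in 𝓝[>] 0, |size (LFun x j π) τ ε| ≤ 1 - δ) ∧
      ∀ Λ : ℂ → ℂ, IsContinuation (LFun x j π) τ Λ →
        ∃ m : ℤ, meromorphicOrderAt Λ (1 + τ * Complex.I) = m ∧ |m| ≤ 1 ∧
          (¬ (∀ a, n a = 1) → m = 0) := by
      intro k hk hJ j hj n π τ hπ
      have hw := wise_of hJ
      have hc : ∀ a, Continuous (π a) := fun a => (hπ a).continuous
      have hs : ∀ a, Pool.Agent.TH553.ST.Schur (π a) := fun a => (hπ a).schur
      have hn : ∀ a, n a ≠ 0 := fun a => ne_zero_of (hπ a)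
      have hle : ∀ U : Ultrafilter ℝ, (U : Filter ℝ) ≤ 𝓝[>] 0 →
          ∃ r, Tendsto (size (LFun x j π) τ) U (𝓝 r) ∧ |r| ≤ 1 := by
        intro U hU
        refine ⟨_, Pool.Agent.X289.Several.size_lim π (fun a => x (j a)) τ hU, ?_⟩
        have h1 := Pool.Agent.X289.Several.le_one (y := fun a => x (j a))
          (μ := fun a => μ (j a)) hc hs (fun a => hl (j a)) hU
          (Pool.Agent.X289.Several.mean_le hw hj hc hs hU) τ
        rw [← sq_abs] at h1
        exact (pow_le_one_iff_of_nonneg (abs_nonneg _) two_ne_zero).1 h1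
      refine ⟨(Pool.Agent.X289.Several.size_LT π (fun a => x (j a)) τ).1, fun η hη => ?_,
        fun h1 => ?_, fun Λ hΛ => ?_⟩
      · refine Pool.Agent.TH553.RS.eventually_of_ultra fun U hU => ?_
        obtain ⟨r, h1, h2⟩ := hle U hU
        exact (h1.abs.eventually_lt_const (lt_of_le_of_lt h2 (by linarith))).mono fun ε hε => hε.le
      · refine Pool.Agent.TH553.ST.unif_lt fun U hU => ?_
        exact ⟨_, Pool.Agent.X289.Several.size_lim π (fun a => x (j a)) τ hU,
          Pool.Agent.X289.Several.lt_one (by omega) hl hp hw hj hc hs hn h1 τ hU⟩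
      · obtain ⟨m, h4, h5⟩ := Pool.Agent.TH553.ST.order_unit
          (Pool.Agent.X289.Several.size_LT π (fun a => x (j a)) τ).1 hΛ.1 hΛ.2
        obtain ⟨U, hU⟩ := Ultrafilter.exists_le (𝓝[>] (0 : ℝ))
        refine ⟨m, h4, ?_, fun h1 => ?_⟩
        · obtain ⟨r, h6, h7⟩ := hle U hU
          have h8 := tendsto_nhds_unique h6 (h5.mono_left hU)
          rw [h8, abs_neg] at h7
          exact_mod_cast h7
        · have h6 := Pool.Agent.X289.Several.order_mean hU (h5.mono_left hU)
          have h7 := Pool.Agent.X289.Several.lt_one (by omega) hl hp hw hj hc hs hn h1 τ hU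
          rw [h6, abs_neg] at h7
          have h8 : |m| < 1 := by exact_mod_cast h7
          exact Int.abs_lt_one_iff.1 h8
    refine ⟨one, fun hL => ?_⟩
    have hall : ∀ k : ℕ, 2 ≤ k → JointLaw x μ k := by
      intro k hk
      refine of_wise (Pool.Agent.X289.Several.all_wise hl hp hw2 ?_ k hk)
      intro k hk j hj n π h1 h2 h3 τ
      obtain ⟨Λ, hΛ, h4⟩ := hL (k + 1) (by omega) j hj n π (fun a => ⟨h1 a, h2 a, h3 a⟩) τ
      exact ⟨Λ, hΛ.1, hΛ.2, h4⟩
    refine ⟨hall, fun k hk j hj n π hπ τ => ?_⟩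
    obtain ⟨k, rfl⟩ : ∃ l, k = l + 1 := ⟨k - 1, by omega⟩
    obtain ⟨Λ, hΛ, h4⟩ := hL (k + 1) hk j hj n π hπ τ
    refine ⟨Λ, hΛ, ?_⟩
    by_cases h1 : ∀ a, n a = 1
    · exact h4 h1
    · obtain ⟨m, h5, -, h6⟩ := (one k (by omega) (hall k (by omega)) j hj n π τ hπ).2.2.2 Λ hΛ
      rw [h5, h6 h1]
      rfl
  · push Not at hι
    obtain ⟨i₀, hi₀⟩ := hι
    have hno : ∀ k : ℕ, 2 ≤ k → ∀ j : Fin k → ι, ¬ Function.Injective j := by
      intro k hk j hj
      have h1 : j ⟨0, by omega⟩ = j ⟨1, by omega⟩ := (hi₀ _).symm.trans (hi₀ _)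
      have h2 := hj h1
      simp at h2
    exact ⟨fun k hk _ j hj => absurd hj (hno (k + 1) (by omega) j), fun _ =>
      ⟨fun k hk j hj => absurd hj (hno k hk j),
        fun k hk j hj => absurd hj (hno k (by omega) j)⟩⟩

end Pool.Agent.Results.MP_4c4ce6_nt.SeveralFamilies
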