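import Pool.Agent.X289.Three

/-!
# Three elliptic curves: uncorrelated traces and all sign patterns

Let `E_0`, `E_1`, `E_2` be elliptic curves without complex multiplication over a totally real field `K` (for
instance `K = ℚ`), no two of which are isogenous over an algebraic closure, and `V = H¹(E_0 × E_1 × E_2)`, a
Hodge structure of weight one; the Sato-Tate group is `SU(2)³`, and a class in it is given by the three
normalised traces `a_i(v) = 2 cos θ_i(v)`.  The Sato-Tate law of the triple `(a_0, a_1, a_2)` is open: it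
needs the functions `L(Sym^a E_0 × Sym^b E_1 × Sym^c E_2, s)` for all `a`, `b`, `c`.  Known are

* the law of each pair (Harris; Barnet-Lamb, Gee, Geraghty): the product of two Sato-Tate laws, and
* the functions `L(Sym^c E_0 × E_1 × E_2, s)`, `c ≥ 1`: they are Rankin-Selberg functions of the automorphic
  representations `Sym^c π_0` (Newton, Thorne) and `π_1 ⊠ π_2` (Ramakrishnan), which are not dual to each
  other up to a twist by a power of the norm, and so are holomorphic and not zero on `Re s ≥ 1`.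

These two facts are the hypotheses of the theorem.  It says: given the trace of `E_0`, the traces of `E_1`
and `E_2` are uncorrelated, `avg f(a_0) a_1 a_2 → 0` for every continuous `f`; for every continuous `f ≥ 0`
and all signs the average of `f(a_0)` over the `v` with prescribed signs of `a_1(v)` and `a_2(v)` is for
large `N` at least `1/24` of the Sato-Tate integral of `f`; and each of the eight sign patterns of
`(a_0, a_1, a_2)` has lower density at least `1/48`.

The proof: by Newton-Thorne and Ramakrishnan `f(a_0) a_1 a_2` has average zero, and by the pair law all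
`f(a_0) g(a_1)` and `f(a_0) g(a_2)` have the expected averages.  With `x = a_1 / 2`, `y = a_2 / 2` in
`[-1, 1]` and `e(x) = -9/16 + 3 |x| - 2 x²` one has `4 x y + e(x) + e(y) = -2 (|x| + |y| - 3/4)²` if `x y ≤ 0`
and `≤ 39/8` if `x y ≥ 0`, so that `4 x y + e(x) + e(y) + (39/16) (sign x + sign y)` is at most `39/4` times
the indicator function of `x > 0, y > 0`; its expected value is `8/π - 17/8 > 39/96`.
-/

set_option autoImplicit false
set_option linter.unusedSectionVars false

namespace Pool.Agent.Results.MP_4c4ce6_nt.ThreeCurves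

open NumberField IsDedekindDomain Filter Topology MeasureTheory

section

variable {K : Type} [Field K] [NumberField K]

/-- The average of `g` over the primes of `K` of norm at most `N`. -/
noncomputable def avg (g : HeightOneSpectrum (𝓞 K) → ℝ) (N : ℕ) : ℝ :=
  (∑ᶠ v : {v : HeightOneSpectrum (𝓞 K) // Ideal.absNorm v.asIdeal ≤ N}, g v.1) /
    (Nat.card {v : HeightOneSpectrum (𝓞 K) // Ideal.absNorm v.asIdeal ≤ N} : ℝ)

/-- The integral of `f` for the Sato-Tate law on `[-2, 2]`. -/
noncomputable def stIntegral (f : ℝ → ℝ) : ℝ :=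
  2 / Real.pi * ∫ t in (0 : ℝ)..Real.pi, f (2 * Real.cos t) * Real.sin t ^ 2

/-- The pairs of traces `(2 cos θ_v, 2 cos θ'_v)` are distributed by the product of two Sato-Tate
laws. -/
def PairLaw (θ θ' : HeightOneSpectrum (𝓞 K) → ℝ) : Prop :=
  ∀ f : ℝ × ℝ → ℝ, Continuous f →
    Tendsto (avg fun v => f (2 * Real.cos (θ v), 2 * Real.cos (θ' v))) atTop
      (𝓝 (stIntegral fun x => stIntegral fun y => f (x, y)))

/-- The roots of `Sym^m` at the angle `t`. -/
noncomputable def root (m : ℕ) (t : ℝ) (j : Fin (m + 1)) : ℂ :=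
  Complex.exp ((((m : ℝ) - 2 * ((j : ℕ) : ℝ)) * t : ℝ) * Complex.I)

/-- The Euler product `L(Sym^c θ_0 ⊗ θ_1 ⊗ θ_2, s)`. -/
noncomputable def LFun (θ : Fin 3 → HeightOneSpectrum (𝓞 K) → ℝ) (c : ℕ) (s : ℂ) : ℂ :=
  ∏' v : HeightOneSpectrum (𝓞 K), (∏ k : Fin (c + 1) × Fin 2 × Fin 2,
    (1 - (root c (θ 0 v) k.1 * (root 1 (θ 1 v) k.2.1 * root 1 (θ 2 v) k.2.2)) *
      (Ideal.absNorm v.asIdeal : ℂ) ^ (-s)))⁻¹

/-- `Λ` is a meromorphic continuation of `LFun θ c` to a neighbourhood of `1 + iτ`. -/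
def IsContinuation (θ : Fin 3 → HeightOneSpectrum (𝓞 K) → ℝ) (c : ℕ) (τ : ℝ) (Λ : ℂ → ℂ) : Prop :=
  MeromorphicAt Λ (1 + τ * Complex.I) ∧
    ∀ᶠ s in 𝓝 ((1 : ℂ) + τ * Complex.I), (1 : ℝ) < s.re → Λ s = LFun θ c s

end

section Bridge

open Pool.Agent.TH553.ST Pool.Agent.TH553.RS Pool.Agent.W540.BE
open Pool.Agent.X289.Dens Pool.Agent.X289.Cls Pool.Agent.X289.Uch Pool.Agent.X289.SymM
  Pool.Agent.X289.Three Pool.Agent.X289.Al Pool.Agent.X289.Main

variable {K : Type} [Field K] [NumberField K]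

theorem avg_eq (g : HeightOneSpectrum (𝓞 K) → ℝ) : avg g = mn g := by
  funext N
  have hs : ∀ v, v ∈ upto K N ↔ Ideal.absNorm v.asIdeal ≤ N := fun v => mem_upto
  let e : {v : HeightOneSpectrum (𝓞 K) // Ideal.absNorm v.asIdeal ≤ N} ≃ (upto K N) :=
    Equiv.subtypeEquivRight fun v => (hs v).symm
  have hfin : Finite {v : HeightOneSpectrum (𝓞 K) // Ideal.absNorm v.asIdeal ≤ N} :=
    Finite.of_equiv _ e.symm
  unfold avg mn
  have h1 : (∑ᶠ v : {v : HeightOneSpectrum (𝓞 K) // Ideal.absNorm v.asIdeal ≤ N}, g v.1) =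
      ∑ v ∈ upto K N, g v := by
    rw [← Finset.sum_coe_sort, ← finsum_eq_sum_of_fintype, ← finsum_comp_equiv e]
    rfl
  have h2 : Nat.card {v : HeightOneSpectrum (𝓞 K) // Ideal.absNorm v.asIdeal ≤ N} =
      (upto K N).card := by
    rw [Nat.card_congr e, Nat.card_eq_fintype_card, Fintype.card_coe]
  rw [h1, h2, smul_eq_mul, div_eq_inv_mul]

theorem st_eq (f : ℝ → ℝ) : stIntegral f = J (dk 1) fun x => f (2 * x) := by
  unfold stIntegral J dk
  have e : ∀ t : ℝ, f (2 * Real.cos t) * (2 * Real.sin ((1 : ℕ) * t) ^ 2) =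
      2 * (f (2 * Real.cos t) * Real.sin t ^ 2) := fun t => by
    rw [Nat.cast_one, one_mul]
    ring
  simp only [e]
  rw [intervalIntegral.integral_const_mul]
  ring

theorem pl_of {θ θ' : HeightOneSpectrum (𝓞 K) → ℝ} (h : PairLaw θ θ') : PL θ θ' := by
  intro f g hf hg
  have h1 := h (fun p => f (p.1 / 2) * g (p.2 / 2))
    ((hf.comp (continuous_fst.div_const 2)).mul (hg.comp (continuous_snd.div_const 2)))
  have e : ∀ t : ℝ, 2 * t / 2 = t := fun t => by ring
  simp only [e] at h1
  rw [avg_eq] at h1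
  have e2 : (stIntegral fun x => stIntegral fun y => f (x / 2) * g (y / 2)) =
      J (dk 1) f * J (dk 1) g := by
    simp only [st_eq, e, J_smul]
    have e3 : (fun x => f x * J (dk 1) g) = fun x => J (dk 1) g * f x := by
      funext x
      ring
    rw [e3, J_smul]
    ring
  rw [e2] at h1
  exact h1

theorem sum_root (m : ℕ) (t : ℝ) : ∑ j, root m t j = ((Cf m (Real.cos t) : ℝ) : ℂ) := by
  rw [← ch_eq, ← Ec_real]
  rfl

theorem uc_of_cont {θ : Fin 3 → HeightOneSpectrum (𝓞 K) → ℝ} (hp : PL (θ 1) (θ 2))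
    (hL : ∀ c : ℕ, 1 ≤ c → ∀ τ : ℝ, ∃ Λ : ℂ → ℂ, IsContinuation θ c τ Λ ∧
      meromorphicOrderAt Λ (1 + τ * Complex.I) = 0) : UC (θ 0) (θ 1) (θ 2) := by
  refine uc_of fun l => ?_
  rcases Nat.eq_zero_or_pos l with rfl | hl
  · have h1 := hp (fun x => x) (fun x => x) continuous_id continuous_id
    have e : J (dk 1) (fun x => x) = 0 := J_odd fun x => rfl
    rw [e, mul_zero] at h1
    simp only [Cf_zero, one_mul]
    exact h1
  · have h1 := avg_LA (κ := Fin (l + 1) × Fin 2 × Fin 2)
      (α := fun v k => root l (θ 0 v) k.1 * (root 1 (θ 1 v) k.2.1 * root 1 (θ 2 v) k.2.2))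
      (t := fun v => Cf l (Real.cos (θ 0 v)) *
        (Cf 1 (Real.cos (θ 1 v)) * Cf 1 (Real.cos (θ 2 v)))) (c := 0) (fun v k => by
        rw [norm_mul, norm_mul]
        have h2 : ∀ (m : ℕ) (t : ℝ) (j : Fin (m + 1)), ‖root m t j‖ = 1 := fun m t j =>
          norm_eg m t j
        rw [h2, h2, h2]
        norm_num) (fun v => by
        rw [Fintype.sum_prod_type]
        simp only [Fintype.sum_prod_type]
        simp only [← Finset.mul_sum, ← Finset.sum_mul]
        rw [sum_root, sum_root, sum_root]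
        push_cast
        ring) fun τ => by
        obtain ⟨Λ, h2, h3⟩ := hL l hl τ
        refine ⟨Λ, h2, ?_⟩
        rw [h3]
        simp
    have h2 := h1.const_mul (1 / 4)
    rw [Int.cast_zero, mul_zero] at h2
    refine h2.congr fun N => ?_
    rw [← mn_smul]
    congr 1
    funext v
    rw [Cf_one, Cf_one]
    ring

end Bridge

open Classical in
/-- **Three elliptic curves.**  Let `K` be a number field and `θ_0, θ_1, θ_2` three families of angles for
the primes of `K`.  Suppose that for `i ≠ j` the pairs of traces `(2 cos θ_i, 2 cos θ_j)` are distributed by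
the product of two Sato-Tate laws, and that for all `c ≥ 1` the Euler product
`L(Sym^c θ_0 ⊗ θ_1 ⊗ θ_2, s)` has a continuation to a neighbourhood of each point of `Re s = 1` without a
zero or a pole there.  Put `a_i = 2 cos θ_i`.

1. `avg f(a_0) a_1 a_2 → 0` for every continuous `f`.
2. For all signs `ε`, `ε'` and every continuous `f` with `f ≥ 0` on `[-2, 2]` the average of `f(a_0)` over
   the primes with `ε a_1 > 0` and `ε' a_2 > 0` is for all large `N` at least `1/24` of the Sato-Tate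
   integral of `f`.
3. For all signs `ε_0, ε_1, ε_2` the proportion of the primes with `ε_i a_i > 0`, `i = 0, 1, 2`, is for all
   large `N` at least `1/48`. -/
theorem result {K : Type} [Field K] [NumberField K] (θ : Fin 3 → HeightOneSpectrum (𝓞 K) → ℝ)
    (hpair : ∀ i j, i ≠ j → PairLaw (θ i) (θ j))
    (hL : ∀ c : ℕ, 1 ≤ c → ∀ τ : ℝ, ∃ Λ : ℂ → ℂ, IsContinuation θ c τ Λ ∧
      meromorphicOrderAt Λ (1 + τ * Complex.I) = 0) :
    (∀ f : ℝ → ℝ, Continuous f → Tendsto (avg fun v => f (2 * Real.cos (θ 0 v)) *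
      ((2 * Real.cos (θ 1 v)) * (2 * Real.cos (θ 2 v)))) atTop (𝓝 0)) ∧
    (∀ ε ε' : ℝ, (ε = 1 ∨ ε = -1) → (ε' = 1 ∨ ε' = -1) → ∀ f : ℝ → ℝ, Continuous f →
      (∀ x ∈ Set.Icc (-2 : ℝ) 2, 0 ≤ f x) → ∀ᶠ N in atTop, 1 / 24 * stIntegral f ≤
        avg (fun v => if 0 < ε * (2 * Real.cos (θ 1 v)) ∧ 0 < ε' * (2 * Real.cos (θ 2 v)) then
          f (2 * Real.cos (θ 0 v)) else 0) N) ∧
    (∀ ε : Fin 3 → ℝ, (∀ i, ε i = 1 ∨ ε i = -1) → ∀ᶠ N in atTop, 1 / 48 ≤
      avg (fun v => if ∀ i, 0 < ε i * (2 * Real.cos (θ i v)) then 1 else 0) N) := by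
  have h1 := pl_of (hpair 0 1 (by decide))
  have h2 := pl_of (hpair 0 2 (by decide))
  have h3 := uc_of_cont (pl_of (hpair 1 2 (by decide))) hL
  have hpos : ∀ s t : ℝ, 0 < s * (2 * t) ↔ 0 < s * t := fun s t => by
    constructor <;> intro h <;> nlinarith
  refine ⟨fun f hf => ?_, fun ε ε' hε hε' f hf hf0 => ?_, fun ε hε => ?_⟩
  · rw [avg_eq]
    have h4 := (h3 (fun x => f (2 * x)) (hf.comp (continuous_const.mul continuous_id))).const_mul 4
    rw [mul_zero] at h4
    refine h4.congr fun N => ?_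
    rw [← Pool.Agent.X289.Main.mn_smul]
    congr 1
    funext v
    ring
  · have h4 := Pool.Agent.X289.Three.lower24 h1 h2 h3 (f := fun x => f (2 * x))
      (hf.comp (continuous_const.mul continuous_id))
      (fun t ht => hf0 _ ⟨by linarith [ht.1], by linarith [ht.2]⟩) hε hε'
    rw [st_eq, avg_eq]
    simp only [hpos]
    refine h4.mono fun N hN => ?_
    convert hN using 3
  · have h4 := Pool.Agent.X289.Three.lower48 h1 h2 h3 (hε 1) (hε 2) (hε 0)
    rw [avg_eq]
    simp only [hpos, Fin.forall_fin_succ]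
    refine h4.mono fun N hN => ?_
    convert hN using 3
    simp

end Pool.Agent.Results.MP_4c4ce6_nt.ThreeCurves
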