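import Pool.Agent.X289.Two

/-!
# Two families which obey the Sato-Tate law: the law of the pair

`K` is a number field, `G` and `G'` are the Sato-Tate groups over `K` of two families as in the problem,
`x_v ∈ G` and `x'_v ∈ G'` are elements of the classes of the prime `v` of `K` (any elements at the finitely
many exceptional primes; this changes the `L`-functions below by finitely many factors without zeros and
poles in `Re s > 0`).  Suppose that the Sato-Tate law is known for each of the two families.  The
theorem is about the law of the pairs `(x_v, x'_v)`, that is, about the direct sum of the two families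
(with the group `G × G'`), and about the functions
`L(π ⊗ π', s) = ∏_v det (1 - q_v^{-s} π(x_v) ⊗ π'(x'_v))⁻¹` for nontrivial irreducible representations
`π` of `G` and `π'` of `G'`.

* Without any continuation, `|log |L(π ⊗ π', 1 + iτ + ε)||` is at most `(1 + η) log (1 / ε)`, and at
  most `(1 - δ) log (1 / ε)` unless the absolute values of the characters of `π` and `π'` have the same
  distribution.
* If `L(π ⊗ π', s)` has a meromorphic continuation to a neighbourhood of `1 + iτ`, then its order there
  is `0`, `1` or `-1`; if it is not `0`, the absolute values of the characters of `π` and `π'` have the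
  same distribution, the two characters essentially agree at the classes of almost all primes, and
  either `τ = 0` or no tensor power of `π` contains the trivial representation.
* Hence the joint law follows from the meromorphic continuation of all `L(π ⊗ π', s)` to neighbourhoods
  of the points of the line `Re s = 1`, with orders needed only for the pairs `π`, `π'` whose characters
  have the same absolute values in distribution, and, if some tensor power of every `π` contains
  the trivial representation (for instance if the centre of `G` is finite and `G` is connected), only at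
  the point `s = 1`.
-/

set_option autoImplicit false

namespace Pool.Agent.Results.MP_4c4ce6_nt.TwoFamilies

open NumberField IsDedekindDomain Filter Topology MeasureTheory
open scoped Kronecker ComplexConjugate

section

variable {K : Type} [Field K] [NumberField K]

/-- The norm `q_v` of the prime `v`. -/
noncomputable def q (v : HeightOneSpectrum (𝓞 K)) : ℕ := Ideal.absNorm v.asIdeal

/-- The average of `φ` over the primes of `K` of norm at most `N`. -/
noncomputable def avg (φ : HeightOneSpectrum (𝓞 K) → ℂ) (N : ℕ) : ℂ :=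
  (∑ᶠ v : {v : HeightOneSpectrum (𝓞 K) // q v ≤ N}, φ v.1) /
    (Nat.card {v : HeightOneSpectrum (𝓞 K) // q v ≤ N} : ℂ)

/-- The classes of the `x v` are equidistributed for `μ`. -/
def Equidistributed {G : Type} [Group G] [TopologicalSpace G] [MeasurableSpace G]
    (x : HeightOneSpectrum (𝓞 K) → G) (μ : Measure G) : Prop :=
  ∀ f : G → ℂ, Continuous f → (∀ g h, f (h * g * h⁻¹) = f g) →
    Tendsto (avg fun v => f (x v)) atTop (𝓝 (∫ g, f g ∂μ))

/-- The set `S` of primes has logarithmic (Dirichlet) density zero. -/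
def DensityZero (S : Set (HeightOneSpectrum (𝓞 K))) : Prop :=
  Tendsto (fun ε : ℝ => (∑' v : HeightOneSpectrum (𝓞 K), S.indicator (fun _ => (1 : ℝ)) v *
    (q v : ℝ) ^ (-(1 + ε))) / Real.log (1 / ε)) (𝓝[>] 0) (𝓝 0)

end

section

variable {G : Type} [Group G] {n : ℕ}

/-- The character of `π`. -/
noncomputable def tr (π : G →* Matrix.unitaryGroup (Fin n) ℂ) (g : G) : ℂ :=
  (π g : Matrix (Fin n) (Fin n) ℂ).trace

/-- The unitary representation `π` is continuous, irreducible (only the scalars commute with all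
matrices `π g`) and not trivial. -/
structure IsNontrivialIrreducible [TopologicalSpace G]
    (π : G →* Matrix.unitaryGroup (Fin n) ℂ) : Prop where
  continuous : Continuous π
  schur : ∀ A : Matrix (Fin n) (Fin n) ℂ, (∀ g, (π g : Matrix (Fin n) (Fin n) ℂ) * A = A * π g) →
    ∃ c : ℂ, A = c • (1 : Matrix (Fin n) (Fin n) ℂ)
  nontrivial : ∃ g, π g ≠ 1

end

section

variable {K : Type} [Field K] [NumberField K] {G G' : Type} [Group G] [Group G'] {n n' : ℕ}

/-- The absolute values of the characters of `π` and `π'` have the same distribution (as the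
characters are bounded, it is the same to say that all even moments of the absolute values agree). -/
def SameLaw [MeasurableSpace G] [MeasurableSpace G'] (π : G →* Matrix.unitaryGroup (Fin n) ℂ)
    (μ : Measure G) (π' : G' →* Matrix.unitaryGroup (Fin n') ℂ) (μ' : Measure G') : Prop :=
  ∀ k : ℕ, ∫ g, (‖tr π g‖ ^ 2) ^ k ∂μ = ∫ g, (‖tr π' g‖ ^ 2) ^ k ∂μ'

/-- The Euler product `L(π ⊗ π', s) = ∏_v det (1 - q_v^{-s} π(x_v) ⊗ π'(x'_v))⁻¹` over the primes
`v` of `K`. -/
noncomputable def LFun (π : G →* Matrix.unitaryGroup (Fin n) ℂ) (x : HeightOneSpectrum (𝓞 K) → G)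
    (π' : G' →* Matrix.unitaryGroup (Fin n') ℂ) (x' : HeightOneSpectrum (𝓞 K) → G') (s : ℂ) : ℂ :=
  ∏' v : HeightOneSpectrum (𝓞 K), (Matrix.det (1 - ((q v : ℂ) ^ (-s)) •
    ((π (x v) : Matrix (Fin n) (Fin n) ℂ) ⊗ₖ (π' (x' v) : Matrix (Fin n') (Fin n') ℂ))))⁻¹

/-- `log |L(π ⊗ π', 1 + iτ + ε)| / log (1/ε)`. -/
noncomputable def size (π : G →* Matrix.unitaryGroup (Fin n) ℂ) (x : HeightOneSpectrum (𝓞 K) → G)
    (π' : G' →* Matrix.unitaryGroup (Fin n') ℂ) (x' : HeightOneSpectrum (𝓞 K) → G')
    (τ ε : ℝ) : ℝ := Real.log ‖LFun π x π' x' (1 + τ * Complex.I + ε)‖ / Real.log (1 / ε)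

/-- `Λ` is a meromorphic continuation of `L(π ⊗ π', s)` to a neighbourhood of `1 + iτ`. -/
def IsContinuation (π : G →* Matrix.unitaryGroup (Fin n) ℂ) (x : HeightOneSpectrum (𝓞 K) → G)
    (π' : G' →* Matrix.unitaryGroup (Fin n') ℂ) (x' : HeightOneSpectrum (𝓞 K) → G')
    (τ : ℝ) (Λ : ℂ → ℂ) : Prop :=
  MeromorphicAt Λ (1 + τ * Complex.I) ∧
    ∀ᶠ s in 𝓝 ((1 : ℂ) + τ * Complex.I), (1 : ℝ) < s.re → Λ s = LFun π x π' x' s

/-- Either `τ = 0`, or no tensor power of `π` contains the trivial representation: the integrals of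
all powers of the character are zero. -/
def RealOrFree [MeasurableSpace G] (π : G →* Matrix.unitaryGroup (Fin n) ℂ) (μ : Measure G)
    (τ : ℝ) : Prop := τ = 0 ∨ ∀ k : ℕ, 0 < k → ∫ g, tr π g ^ k ∂μ = 0

end

section Bridge

set_option linter.unusedSectionVars false

open Pool.Agent.TH553.ST Pool.Agent.TH553.RS Pool.Agent.W540.BE

section

variable {K : Type} [Field K] [NumberField K]

theorem avg_eq (g : HeightOneSpectrum (𝓞 K) → ℂ) : avg g = mn g := by
  funext N
  have hs : ∀ v, v ∈ upto K N ↔ Ideal.absNorm v.asIdeal ≤ N := fun v => mem_upto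
  let e : {v : HeightOneSpectrum (𝓞 K) // Ideal.absNorm v.asIdeal ≤ N} ≃ (upto K N) :=
    Equiv.subtypeEquivRight fun v => (hs v).symm
  have hfin : Finite {v : HeightOneSpectrum (𝓞 K) // Ideal.absNorm v.asIdeal ≤ N} :=
    Finite.of_equiv _ e.symm
  unfold avg mn q
  have h1 : (∑ᶠ v : {v : HeightOneSpectrum (𝓞 K) // Ideal.absNorm v.asIdeal ≤ N}, g v.1) =
      ∑ v ∈ upto K N, g v := by
    rw [← Finset.sum_coe_sort, ← finsum_eq_sum_of_fintype, ← finsum_comp_equiv e]
    rfl
  have h2 : Nat.card {v : HeightOneSpectrum (𝓞 K) // Ideal.absNorm v.asIdeal ≤ N} =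
      (upto K N).card := by
    rw [Nat.card_congr e, Nat.card_eq_fintype_card, Fintype.card_coe]
  rw [h1, h2, Complex.real_smul, div_eq_inv_mul]
  push_cast
  rfl

end

section

variable {K : Type} [Field K] [NumberField K]
variable {G : Type} [Group G] [TopologicalSpace G] [IsTopologicalGroup G] [CompactSpace G]
  [MeasurableSpace G] [BorelSpace G] {μ : Measure G} [IsProbabilityMeasure μ] [μ.IsHaarMeasure]
  {x : HeightOneSpectrum (𝓞 K) → G}

theorem law_of (h : Equidistributed x μ) : Law x μ := by
  intro f hf hcl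
  have h1 := h (fun g => (f g : ℂ)) (Complex.continuous_ofReal.comp hf) fun g h => by rw [hcl]
  have h0 : ∫ g, (f g : ℂ) ∂μ = ((∫ g, f g ∂μ : ℝ) : ℂ) := integral_ofReal
  rw [avg_eq, h0] at h1
  have h2 := (Complex.continuous_re.tendsto _).comp h1
  refine h2.congr fun N => ?_
  simp only [Function.comp]
  rw [re_mn]
  rfl

end

end Bridge

/-- **Two families which obey the Sato-Tate law.**  Let `K` be a number field, `G`, `G'` compact Hausdorff
second countable groups with Haar probability measures `μ`, `μ'`, let `x_v ∈ G` and `x'_v ∈ G'` for the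
primes `v` of `K`, and suppose that the classes of the `x_v` are equidistributed, and those of the
`x'_v` as well.

I.  Let `π`, `π'` be nontrivial irreducible representations of `G` and `G'` and `τ` a real number.
Then `L(π ⊗ π', 1 + iτ + ε) ≠ 0` for small `ε > 0`, and `|log |L(π ⊗ π', 1 + iτ + ε)||` is at most
`(1 + η) log (1/ε)` for every `η > 0` and all small `ε`; if the laws of the absolute values of the two
characters differ, it is at most `(1 - δ) log (1/ε)` for some `δ > 0` and all small `ε`.  Every meromorphic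
continuation to a neighbourhood of `1 + iτ` has an order `m` at this point, and either `m = 0`, or
`m = ±1`, the laws of the absolute values of the two characters are the same, `τ = 0` or no tensor
power of `π` contains the trivial representation, and for every `δ > 0` the set of the `v` with
`|tr π(x_v) + m conj (tr π'(x'_v)) q_v^{iτ}| > δ` has density zero.

II.  Suppose that for all nontrivial irreducible `π`, `π'` and all real `τ` there is a meromorphic
continuation of `L(π ⊗ π', s)` to a neighbourhood of `1 + iτ`, and that it has no zero or pole there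
if the laws of the absolute values of the two characters are the same and (`τ = 0` or no tensor power
of `π` contains the trivial representation).  Then the classes of the pairs `(x_v, x'_v)` are
equidistributed in `G × G'`. -/
theorem result (K : Type) [Field K] [NumberField K]
    (G : Type) [Group G] [TopologicalSpace G] [IsTopologicalGroup G] [CompactSpace G] [T2Space G]
    [SecondCountableTopology G] [MeasurableSpace G] [BorelSpace G] (μ : Measure G)
    [IsProbabilityMeasure μ] [μ.IsHaarMeasure]
    (G' : Type) [Group G'] [TopologicalSpace G'] [IsTopologicalGroup G'] [CompactSpace G']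
    [T2Space G'] [SecondCountableTopology G'] [MeasurableSpace G'] [BorelSpace G']
    (μ' : Measure G') [IsProbabilityMeasure μ'] [μ'.IsHaarMeasure]
    (x : HeightOneSpectrum (𝓞 K) → G) (hx : Equidistributed x μ)
    (x' : HeightOneSpectrum (𝓞 K) → G') (hx' : Equidistributed x' μ') :
    (∀ (n n' : ℕ) (π : G →* Matrix.unitaryGroup (Fin n) ℂ)
      (π' : G' →* Matrix.unitaryGroup (Fin n') ℂ) (τ : ℝ),
      IsNontrivialIrreducible π → IsNontrivialIrreducible π' →
      (∀ᶠ ε : ℝ in 𝓝[>] 0, LFun π x π' x' (1 + τ * Complex.I + ε) ≠ 0) ∧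
      (∀ η : ℝ, 0 < η → ∀ᶠ ε : ℝ in 𝓝[>] 0, |size π x π' x' τ ε| ≤ 1 + η) ∧
      (¬ SameLaw π μ π' μ' →
        ∃ δ : ℝ, 0 < δ ∧ ∀ᶠ ε : ℝ in 𝓝[>] 0, |size π x π' x' τ ε| ≤ 1 - δ) ∧
      ∀ Λ : ℂ → ℂ, IsContinuation π x π' x' τ Λ →
        ∃ m : ℤ, meromorphicOrderAt Λ (1 + τ * Complex.I) = m ∧
          (m = 0 ∨ (|m| = 1 ∧ SameLaw π μ π' μ' ∧ RealOrFree π μ τ ∧
            ∀ δ : ℝ, 0 < δ → DensityZero {v : HeightOneSpectrum (𝓞 K) |
              δ < ‖tr π (x v) + (m : ℂ) *
                (conj (tr π' (x' v)) * (q v : ℂ) ^ (τ * Complex.I))‖}))) ∧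
    ((∀ (n n' : ℕ) (π : G →* Matrix.unitaryGroup (Fin n) ℂ)
      (π' : G' →* Matrix.unitaryGroup (Fin n') ℂ),
      IsNontrivialIrreducible π → IsNontrivialIrreducible π' → ∀ τ : ℝ,
        ∃ Λ : ℂ → ℂ, IsContinuation π x π' x' τ Λ ∧
          (SameLaw π μ π' μ' → RealOrFree π μ τ →
            meromorphicOrderAt Λ (1 + τ * Complex.I) = 0)) →
      Equidistributed (fun v => (x v, x' v)) (μ.prod μ')) := by
  have hl := law_of hx
  have hl' := law_of hx'
  have key : ∀ (n n' : ℕ) (π : G →* Matrix.unitaryGroup (Fin n) ℂ)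
      (π' : G' →* Matrix.unitaryGroup (Fin n') ℂ) (τ : ℝ),
      IsNontrivialIrreducible π → IsNontrivialIrreducible π' →
      ∀ Λ : ℂ → ℂ, IsContinuation π x π' x' τ Λ →
        ∃ m : ℤ, meromorphicOrderAt Λ (1 + τ * Complex.I) = m ∧
          (m = 0 ∨ (|m| = 1 ∧ SameLaw π μ π' μ' ∧ RealOrFree π μ τ ∧
            ∀ δ : ℝ, 0 < δ → DensityZero {v : HeightOneSpectrum (𝓞 K) |
              δ < ‖tr π (x v) + (m : ℂ) *
                (conj (tr π' (x' v)) * (q v : ℂ) ^ (τ * Complex.I))‖})) := by
    intro n n' π π' τ hπ hπ' Λ hΛ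
    obtain ⟨m, hm1, hm2⟩ := Pool.Agent.TH553.ST.order_LP hΛ.1 hΛ.2
    refine ⟨m, hm1, ?_⟩
    by_cases h0 : m = 0
    · exact Or.inl h0
    · obtain ⟨h1, h2, h3⟩ := Pool.Agent.TH553.ST.pair_rigid hl hl' hπ.continuous hπ.schur
        hπ'.continuous hπ'.schur hm2 h0
      refine Or.inr ⟨h1, h2, ?_, fun δ hδ => ?_⟩
      · by_cases hτ : τ = 0
        · exact Or.inl hτ
        · refine Or.inr fun k hk => ?_
          obtain ⟨V, hV⟩ := Ultrafilter.exists_le (𝓝[>] (0 : ℝ))
          obtain ⟨r, k1, k2, k3⟩ := Pool.Agent.TH553.ST.pair_lim (π := π) (π' := π') hl hl'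
            hπ.continuous hπ.schur hπ'.continuous hπ'.schur τ hV
          have h4 : r = -(m : ℝ) := tendsto_nhds_unique k1 (hm2.mono_left hV)
          have h5 : 1 ≤ r ^ 2 := by
            rw [h4, neg_sq]
            have : 1 ≤ m ^ 2 := by
              have := Int.one_le_abs h0
              rw [← sq_abs]
              nlinarith
            exact_mod_cast this
          obtain ⟨k4, k5, -⟩ := k3 h5
          exact Pool.Agent.X289.pair_pow hl hl' hπ.continuous hπ'.continuous hτ hV k4 k5 hk
      · have h4 := h3 δ hδ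
        refine h4.congr fun ε => ?_
        unfold Pool.Agent.W540.BE.EP
        congr 1
        refine tsum_congr fun v => ?_
        have e : ∀ v : HeightOneSpectrum (𝓞 K),
            Pool.Agent.TH553.ST.df (-(m : ℝ)) (Pool.Agent.TH553.ST.tc π x 0)
              (Pool.Agent.TH553.ST.tc π' x' τ) v = tr π (x v) + (m : ℂ) *
                (conj (tr π' (x' v)) * (q v : ℂ) ^ (τ * Complex.I)) := by
          intro v
          unfold Pool.Agent.TH553.ST.df Pool.Agent.TH553.ST.tc
          have e1 : conj (((Pool.Agent.W540.BE.nm K v : ℕ) : ℂ) ^ (-(τ * Complex.I : ℂ))) =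
              (q v : ℂ) ^ (τ * Complex.I) := by
            have hne : ((Pool.Agent.W540.BE.nm K v : ℕ) : ℂ).arg ≠ Real.pi := by
              rw [Complex.natCast_arg]
              exact Real.pi_pos.ne
            have h5 := Complex.cpow_conj ((Pool.Agent.W540.BE.nm K v : ℕ) : ℂ)
              (-(τ * Complex.I : ℂ)) hne
            have h6 : conj (-(τ * Complex.I : ℂ)) = τ * Complex.I := by simp
            rw [h6, Complex.conj_natCast] at h5
            exact h5.symm
          rw [map_mul, e1]
          simp only [Complex.ofReal_zero, zero_mul, neg_zero, Complex.cpow_zero, mul_one]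
          push_cast
          change tr π (x v) - -(m : ℂ) * _ = _
          rw [neg_mul, sub_neg_eq_add]
          rfl
        simp only [e]
        rfl
  refine ⟨fun n n' π π' τ hπ hπ' => ⟨(Pool.Agent.TH553.ST.size_LP π x π' x' τ).1,
    fun η hη => Pool.Agent.TH553.ST.pair_le hl hl' hπ.continuous hπ.schur hπ'.continuous
      hπ'.schur τ hη,
    fun hd => Pool.Agent.TH553.ST.pair_lt hl hl' hπ.continuous hπ.schur hπ'.continuous
      hπ'.schur hd τ, key n n' π π' τ hπ hπ'⟩, fun hcont => ?_⟩
  intro f hf hcl
  rw [avg_eq]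
  refine Pool.Agent.X289.joint' hl hl' (fun m m' ρ ρ' h1 h2 h3 h4 h5 h6 => ?_) hf
    (fun g g' k k' => hcl (g, g') (k, k'))
  have i1 : IsNontrivialIrreducible ρ := ⟨h1, h2, h3⟩
  have i2 : IsNontrivialIrreducible ρ' := ⟨h4, h5, h6⟩
  refine Pool.Agent.X289.avg_of_order fun τ => ?_
  obtain ⟨Λ, hΛ, hord⟩ := hcont m m' ρ ρ' i1 i2 τ
  refine ⟨Λ, hΛ.1, hΛ.2, ?_⟩
  obtain ⟨k, hk, h0 | ⟨-, h7, h8, -⟩⟩ := key m m' ρ ρ' τ i1 i2 Λ hΛ
  · rw [hk, h0]
  · rw [hord h7 h8]
    rfl

end Pool.Agent.Results.MP_4c4ce6_nt.TwoFamilies
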